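import Pool.Agent.H12.Sharp2
import Pool.Agent.H12.Struct

/-!
Capitulation of Tate-Shafarevich classes in an arbitrary (finite or infinite) Galois extension is
bounded, in a sharp way, by the growth of the Mordell-Weil rank.
-/

namespace Pool.Agent.H12.Old.CapitulationStructure

open scoped Classical
open WeierstrassCurve.Affine

/-- The continuous 1-cocycles `f` of `Gal(K̄/K)` with values in `E(K̄)` whose class in `H¹(K, E)`
is killed by a power of `p` and restricts to zero in `H¹(L, E)`. -/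
def splitCocycles {K : Type} [Field K] (W : WeierstrassCurve K)
    (L : IntermediateField K (AlgebraicClosure K)) (p : ℕ) :
    Set ((AlgebraicClosure K ≃ₐ[K] AlgebraicClosure K) →
      (W.baseChange (AlgebraicClosure K)).toAffine.Point) :=
  {f | IsLocallyConstant f ∧
    (∀ σ τ : AlgebraicClosure K ≃ₐ[K] AlgebraicClosure K,
      f (σ * τ) = f σ + (Point.map σ.toAlgHom :
        (W.baseChange (AlgebraicClosure K)).toAffine.Point →+
        (W.baseChange (AlgebraicClosure K)).toAffine.Point) (f τ)) ∧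
    (∃ m : ℕ, ∃ P : (W.baseChange (AlgebraicClosure K)).toAffine.Point,
      ∀ σ : AlgebraicClosure K ≃ₐ[K] AlgebraicClosure K, p ^ m • f σ = (Point.map σ.toAlgHom :
        (W.baseChange (AlgebraicClosure K)).toAffine.Point →+
        (W.baseChange (AlgebraicClosure K)).toAffine.Point) P - P) ∧
    (∃ P : (W.baseChange (AlgebraicClosure K)).toAffine.Point,
      ∀ σ : AlgebraicClosure K ≃ₐ[K] AlgebraicClosure K, (∀ x ∈ L, σ x = x) →
        f σ = (Point.map σ.toAlgHom :
        (W.baseChange (AlgebraicClosure K)).toAffine.Point →+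
        (W.baseChange (AlgebraicClosure K)).toAffine.Point) P - P)}

theorem result (K : Type) [Field K] [NumberField K] (W : WeierstrassCurve K) [W.IsElliptic]
    (L : IntermediateField K (AlgebraicClosure K)) [Normal K L] (p : ℕ) [Fact p.Prime] (t : ℕ)
    (hrank : Module.rank ℤ (W.baseChange L).toAffine.Point < Cardinal.aleph0)
    (htors : ∀ P : (W.baseChange L).toAffine.Point, p ^ (t + 1) • P = 0 → p ^ t • P = 0) :
    ∃ (d : ℕ) (ν : Fin d → ℕ) (s : Fin d → ((AlgebraicClosure K ≃ₐ[K] AlgebraicClosure K) →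
          (W.baseChange (AlgebraicClosure K)).toAffine.Point)),
      (∀ i, s i ∈ splitCocycles W L p) ∧
      (∀ f ∈ splitCocycles W L p, ∃ a : Fin d → ℤ,
        ∃ Q : (W.baseChange (AlgebraicClosure K)).toAffine.Point,
          ∀ σ : AlgebraicClosure K ≃ₐ[K] AlgebraicClosure K,
            p ^ t • f σ = ∑ i, a i • (p ^ t • s i σ) + ((Point.map σ.toAlgHom :
              (W.baseChange (AlgebraicClosure K)).toAffine.Point →+
              (W.baseChange (AlgebraicClosure K)).toAffine.Point) Q - Q)) ∧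
      (∀ a : Fin d → ℤ, (∃ Q : (W.baseChange (AlgebraicClosure K)).toAffine.Point,
          ∀ σ : AlgebraicClosure K ≃ₐ[K] AlgebraicClosure K,
            ∑ i, a i • (p ^ t • s i σ) = (Point.map σ.toAlgHom :
              (W.baseChange (AlgebraicClosure K)).toAffine.Point →+
              (W.baseChange (AlgebraicClosure K)).toAffine.Point) Q - Q) ↔
        ∀ i, (p : ℤ) ^ ν i ∣ a i) ∧
      ∑ i, (p ^ ν i - 1) + Module.finrank ℤ (W.baseChange K).toAffine.Point ≤
        Module.finrank ℤ (W.baseChange L).toAffine.Point := by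
  have hp : p.Prime := Fact.out
  let G := AlgebraicClosure K ≃ₐ[K] AlgebraicClosure K
  let M := (W.baseChange (AlgebraicClosure K)).toAffine.Point
  let act : G → M →+ M := fun σ => Point.map σ.toAlgHom
  have hact : ∀ (σ : G) (P : M), (Point.map σ.toAlgHom : M →+ M) P = act σ P := fun _ _ => rfl
  -- local constancy of coboundaries
  let C : AddSubgroup (G → M) :=
    { carrier := splitCocycles W L p
      zero_mem' := by
        refine ⟨IsLocallyConstant.const 0, fun σ τ => ?_, ⟨0, 0, fun σ => ?_⟩, ⟨0, fun σ _ => ?_⟩⟩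
        · show (0 : M) = 0 + act σ 0
          rw [map_zero, add_zero]
        · show p ^ 0 • (0 : M) = act σ 0 - 0
          rw [map_zero, sub_zero, nsmul_zero]
        · show (0 : M) = act σ 0 - 0
          rw [map_zero, sub_zero]
      add_mem' := by
        rintro a b ⟨ha1, ha2, ⟨m, P, hP⟩, Q, hQ⟩ ⟨hb1, hb2, ⟨m', P', hP'⟩, Q', hQ'⟩
        refine ⟨IsLocallyConstant.add ha1 hb1, fun σ τ => ?_,
          ⟨m + m', p ^ m' • P + p ^ m • P', fun σ => ?_⟩, ⟨Q + Q', fun σ hσ => ?_⟩⟩
        · show a (σ * τ) + b (σ * τ) = a σ + b σ + act σ (a τ + b τ)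
          rw [ha2, hb2, map_add, hact, hact]
          abel
        · show p ^ (m + m') • (a σ + b σ) = act σ (p ^ m' • P + p ^ m • P') - _
          have e1 : p ^ (m + m') • (a σ + b σ) = p ^ m' • (p ^ m • a σ) + p ^ m • (p ^ m' • b σ) := by
            rw [nsmul_add, smul_smul, smul_smul, ← pow_add, ← pow_add, add_comm m' m]
          rw [e1, hP, hP', hact, hact, map_add, map_nsmul, map_nsmul, nsmul_sub, nsmul_sub]
          abel
        · show a σ + b σ = act σ (Q + Q') - _
          rw [hQ σ hσ, hQ' σ hσ, hact, hact, map_add]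
          abel
      neg_mem' := by
        rintro a ⟨ha1, ha2, ⟨m, P, hP⟩, Q, hQ⟩
        refine ⟨IsLocallyConstant.neg ha1, fun σ τ => ?_, ⟨m, -P, fun σ => ?_⟩,
          ⟨-Q, fun σ hσ => ?_⟩⟩
        · show - a (σ * τ) = - a σ + act σ (- a τ)
          rw [ha2, map_neg, hact]
          abel
        · show p ^ m • (- a σ) = act σ (-P) - (-P)
          rw [neg_nsmul, hP, map_neg, hact]
          abel
        · show - a σ = act σ (-Q) - (-Q)
          rw [hQ σ hσ, map_neg, hact]
          abel }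
  let B : AddSubgroup (G → M) :=
    { carrier := {f | ∃ Q : M, ∀ σ : G, f σ = act σ Q - Q}
      zero_mem' := ⟨0, fun σ => by rw [map_zero, sub_zero]; rfl⟩
      add_mem' := by
        rintro a b ⟨P, hP⟩ ⟨Q, hQ⟩
        exact ⟨P + Q, fun σ => by rw [Pi.add_apply, hP, hQ, map_add]; abel⟩
      neg_mem' := by
        rintro a ⟨P, hP⟩
        exact ⟨-P, fun σ => by rw [Pi.neg_apply, hP, map_neg]; abel⟩ }
  let Q := C ⧸ B.addSubgroupOf C
  have hmkB : ∀ c : C, (QuotientAddGroup.mk c : Q) = 0 ↔
      ∃ P : M, ∀ σ : G, (c : G → M) σ = act σ P - P := by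
    intro c
    rw [QuotientAddGroup.eq_zero_iff, AddSubgroup.mem_addSubgroupOf]
    rfl
  have hcoe : ∀ (d : ℕ) (x : Fin d → C) (a : Fin d → ℤ) (σ : G),
      ((∑ i, a i • (p ^ t • x i) : C) : G → M) σ = ∑ i, a i • (p ^ t • (x i : G → M) σ) := by
    intro d x a σ
    rw [AddSubgroup.val_finsetSum, Finset.sum_apply]
    rfl
  have hmks : ∀ (d : ℕ) (x : Fin d → C) (a : Fin d → ℤ),
      (QuotientAddGroup.mk (∑ i, a i • (p ^ t • x i)) : Q) =
      ∑ i, a i • (p ^ t • (QuotientAddGroup.mk (x i) : Q)) := by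
    intro d x a
    exact map_sum (QuotientAddGroup.mk' (B.addSubgroupOf C)) _ _
  have htorQ : ∀ x : Q, ∃ m : ℕ, p ^ m • x = 0 := by
    intro x
    obtain ⟨c, rfl⟩ := QuotientAddGroup.mk_surjective x
    obtain ⟨m, P, hP⟩ := c.2.2.2.1
    refine ⟨m, ?_⟩
    exact (hmkB (p ^ m • c)).2 ⟨P, fun σ => hP σ⟩
  obtain ⟨d, ν, y, hgen, hzero, hle⟩ := Pool.Agent.H12.struct_of_ineq p hp htorQ t
    (Module.finrank ℤ (W.baseChange K).toAffine.Point)
    (Module.finrank ℤ (W.baseChange L).toAffine.Point) (by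
    intro d ν x hx
    choose c hc using fun i : Fin d =>
      (QuotientAddGroup.mk_surjective (s := B.addSubgroupOf C)) (x i)
    refine Pool.Agent.H12.galois_sharp W L p hrank t htors (fun i => (c i : G → M))
        (fun i => (c i).2.1) (fun i => (c i).2.2.1) (fun i => (c i).2.2.2.2) ν
        (fun a ha => hx a ?_)
    have h1 : ∑ i, a i • (p ^ t • x i) =
        ∑ i, a i • (p ^ t • (QuotientAddGroup.mk (c i) : Q)) := by
      refine Finset.sum_congr rfl fun i _ => ?_
      rw [hc i]
    refine h1.trans ((hmks d c a).symm.trans ((hmkB _).2 ?_))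
    simp only [hcoe]
    exact ha)
  choose x hx using fun i : Fin d =>
    (QuotientAddGroup.mk_surjective (s := B.addSubgroupOf C)) (y i)
  have hy : y = fun i => (QuotientAddGroup.mk (x i) : Q) := funext fun i => (hx i).symm
  subst hy
  refine ⟨d, ν, fun i => (x i : G → M), fun i => (x i).2, ?_, ?_, hle⟩
  · intro f hf
    obtain ⟨a, ha⟩ := hgen (QuotientAddGroup.mk (⟨f, hf⟩ : C) : Q)
    refine ⟨a, ?_⟩
    have h1 : (QuotientAddGroup.mk (p ^ t • (⟨f, hf⟩ : C) - ∑ i, a i • (p ^ t • x i)) : Q) = 0 := by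
      rw [QuotientAddGroup.mk_sub, hmks, ← ha, sub_eq_zero]
      rfl
    obtain ⟨P, hP⟩ := (hmkB _).1 h1
    refine ⟨P, fun σ => ?_⟩
    have h3 : p ^ t • f σ - ((∑ i, a i • (p ^ t • x i) : C) : G → M) σ = act σ P - P := hP σ
    rw [hcoe] at h3
    rw [hact, ← h3]
    abel
  · intro a
    rw [← hzero, ← hmks, hmkB]
    simp only [hcoe]
    rfl

end Pool.Agent.H12.Old.CapitulationStructure
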